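import Pool.Agent.Helper10K1.ML.Stm

set_option autoImplicit false

/-!
# The piece `P1`
-/

namespace Pool.Agent.Helper50.ML

open Pool.Agent.Helper10K1.ML

universe u

theorem index_inf {Γ : Type u} [Group Γ] {p : ℕ} (hp : p.Prime) (N₁ N₂ : Subgroup Γ) [N₁.Normal]
    {a b : ℕ} (h1 : N₁.index = p ^ a) (h2 : N₂.index = p ^ b) : ∃ k, (N₁ ⊓ N₂).index = p ^ k := by
  have e1 : (N₁ ⊓ N₂).relIndex N₂ * N₂.index = (N₁ ⊓ N₂).index :=
    Subgroup.relIndex_mul_index inf_le_right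
  rw [Subgroup.inf_relIndex_right] at e1
  have e2 : (N₁ ⊓ N₂).index ∣ p ^ (a + b) := by
    rw [← e1, pow_add, h2, ← h1]
    exact mul_dvd_mul_right (Subgroup.relIndex_dvd_index_of_normal N₁ N₂) _
  obtain ⟨k, -, hk⟩ := (Nat.dvd_prime_pow hp).1 e2
  exact ⟨k, hk⟩

theorem aux {Γ : Type u} [Group Γ] [TopologicalSpace Γ] [IsTopologicalGroup Γ] [CompactSpace Γ]
    {p : ℕ} (hp : p.Prime) {ι : Type} [Finite ι] (f : ι → Γ → ZMod p)
    (hf : ∀ i, IsLocallyConstant (f i)) (hinv : ∀ i g m, m ∈ Np p Γ → f i (g * m) = f i g) :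
    ∃ N : Subgroup Γ, N.Normal ∧ IsOpen (N : Set Γ) ∧ (∃ k, N.index = p ^ k) ∧
      ∀ i, ∀ g h : Γ, g⁻¹ * h ∈ N → f i g = f i h := by
  by_contra hcon
  push Not at hcon
  let T := {N : Subgroup Γ // N.Normal ∧ IsOpen (N : Set Γ) ∧ ∃ k, N.index = p ^ k}
  let t : T → Set (Γ × Γ) := fun N => {x | x.2 ∈ N.1 ∧ ∃ i, f i (x.1 * x.2) ≠ f i x.1}
  have hT : Nonempty T := ⟨⟨⊤, inferInstance, isOpen_univ, 0, by simp⟩⟩
  have hcl : ∀ N : T, IsClosed (t N) := by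
    intro N
    have h1 : IsClosed (N.1 : Set Γ) := Subgroup.isClosed_of_isOpen _ N.2.2.1
    have e : t N = (Prod.snd ⁻¹' (N.1 : Set Γ)) ∩
        ⋃ i, {x : Γ × Γ | f i (x.1 * x.2) ≠ f i x.1} := by
      ext x
      simp [t]
    rw [e]
    refine (h1.preimage continuous_snd).inter (isClosed_iUnion_of_finite fun i => ?_)
    have h2 : IsLocallyConstant (fun x : Γ × Γ => f i (x.1 * x.2)) :=
      (hf i).comp_continuous continuous_mul
    have h3 : IsLocallyConstant (fun x : Γ × Γ => f i x.1) :=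
      (hf i).comp_continuous continuous_fst
    have h4 : IsLocallyConstant (fun x : Γ × Γ => (f i (x.1 * x.2), f i x.1)) :=
      h2.prodMk h3
    exact isClosed_compl_iff.2 (h4 {y : ZMod p × ZMod p | y.1 = y.2})
  have hne : ∀ N : T, (t N).Nonempty := by
    intro N
    obtain ⟨i, g, h, hgh, hfgh⟩ := hcon N.1 N.2.1 N.2.2.1 N.2.2.2
    refine ⟨(g, g⁻¹ * h), hgh, i, ?_⟩
    show f i (g * (g⁻¹ * h)) ≠ f i g
    rw [mul_inv_cancel_left]
    exact fun h => hfgh h.symm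
  have hdir : Directed (· ⊇ ·) t := by
    intro N₁ N₂
    obtain ⟨a, ha⟩ := N₁.2.2.2
    obtain ⟨b, hb⟩ := N₂.2.2.2
    have := N₁.2.1
    have := N₂.2.1
    refine ⟨⟨N₁.1 ⊓ N₂.1, inferInstance, ?_, index_inf hp _ _ ha hb⟩, ?_, ?_⟩
    · rw [Subgroup.coe_inf]
      exact N₁.2.2.1.inter N₂.2.2.1
    · exact fun x hx => ⟨hx.1.1, hx.2⟩
    · exact fun x hx => ⟨hx.1.2, hx.2⟩
  obtain ⟨x, hx⟩ := IsCompact.nonempty_iInter_of_directed_nonempty_isCompact_isClosed t hdir hne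
    (fun N => (hcl N).isCompact) hcl
  rw [Set.mem_iInter] at hx
  obtain ⟨-, i, hi⟩ := hx (Classical.arbitrary T)
  refine hi (hinv i x.1 x.2 ?_)
  unfold Np
  rw [Subgroup.mem_iInf]
  intro N
  exact (hx N).1

theorem t_P1 : S_P1.{u} := by
  intro p F _ hp ι _ f hf
  refine aux (Γ := G F) hp (fun i g => f i (QuotientGroup.mk g)) ?_ ?_
  · intro i
    exact (hf i).comp_continuous QuotientGroup.continuous_mk
  · intro i g m hm
    show f i (QuotientGroup.mk (g * m)) = f i (QuotientGroup.mk g)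
    congr 1
    rw [eq_comm, QuotientGroup.eq]
    simpa using hm

end Pool.Agent.Helper50.ML
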